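import Pool.Agent.H44.EQ.Targets

/-!
# Tournaments by alternating windows
-/

set_option autoImplicit false
set_option linter.unusedVariables false

namespace Pool.Agent.H49.EQ

open Pool.Agent.H44.EQ
open Classical

/-- The number of predecessors represents a finite strict linear order. -/
theorem rank_lt {A : Type} [Fintype A] (r : A → A → Prop) (hirr : ∀ a, ¬ r a a)
    (htr : ∀ a b c, r a b → r b c → r a c) (htot : ∀ a b, a ≠ b → r a b ∨ r b a) :
    ∀ a b, ((Finset.univ.filter (fun c => r c a)).card <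
      (Finset.univ.filter (fun c => r c b)).card ↔ r a b) := by
  have key : ∀ a b, r a b → (Finset.univ.filter (fun c => r c a)).card <
      (Finset.univ.filter (fun c => r c b)).card := by
    intro a b hab
    apply Finset.card_lt_card
    rw [Finset.ssubset_iff_of_subset]
    · exact ⟨a, by simpa using hab, by simpa using hirr a⟩
    · intro c hc
      simp only [Finset.mem_filter, Finset.mem_univ, true_and] at hc ⊢
      exact htr c a b hc hab
  intro a b
  refine ⟨fun h => ?_, key a b⟩
  by_contra hn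
  by_cases hab : a = b
  · subst hab
    exact lt_irrefl _ h
  · rcases htot a b hab with h1 | h1
    · exact hn h1
    · exact absurd (key b a h1) (not_lt.2 h.le)

theorem val_sub_cast (p : ℕ) [NeZero p] (i : ZMod p) (j : ℕ) (hj : j < p) :
    (i - (j : ZMod p)).val = if j ≤ i.val then i.val - j else i.val + p - j := by
  have hi : i.val < p := ZMod.val_lt i
  split_ifs with h
  · have e : (i - (j : ZMod p)) = ((i.val - j : ℕ) : ZMod p) := by
      rw [Nat.cast_sub h, ZMod.natCast_zmod_val]
    rw [e, ZMod.val_natCast_of_lt (by omega)]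
  · have e : (i - (j : ZMod p)) = ((i.val + p - j : ℕ) : ZMod p) := by
      rw [Nat.cast_sub (by omega), Nat.cast_add, ZMod.natCast_zmod_val, ZMod.natCast_self, add_zero]
    rw [e, ZMod.val_natCast_of_lt (by omega)]

/-- The threshold of the pair `a`, `b`. -/
noncomputable def thr (K : ℕ) (o : Fin K → Fin K → Prop) (a b : Fin K) : ℕ :=
  2 * (a.val * K + b.val) + 2 + (if o a b then 1 else 0)

/-- The window of the threshold `T`. -/
def win (p T u : ℕ) : Prop := u < T ∨ T + p ≤ u

/-- The order at `u`. -/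
def ord (K : ℕ) (o : Fin K → Fin K → Prop) (p u : ℕ) (a b : Fin K) : Prop :=
  (a < b ∧ win p (thr K o a b) u) ∨ (b < a ∧ ¬ win p (thr K o b a) u)

theorem thr_lt (K : ℕ) (o : Fin K → Fin K → Prop) (a b : Fin K) : thr K o a b < 2 * K ^ 2 + 2 := by
  unfold thr
  have ha := a.isLt
  have hb := b.isLt
  have h1 : (a.val + 1) * K ≤ K * K := Nat.mul_le_mul_right K ha
  have h2 : a.val * K + K ≤ K * K := by rw [Nat.add_mul, one_mul] at h1; exact h1
  rw [sq]
  split_ifs <;> omega

theorem thr_step (K : ℕ) (o : Fin K → Fin K → Prop) (a b d : Fin K) (h1 : a < b) (h2 : b < d) :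
    thr K o a b < thr K o a d ∧ thr K o a d < thr K o b d := by
  unfold thr
  have hab : a.val + 1 ≤ b.val := h1
  have hbd : b.val < d.val := h2
  have hb := b.isLt
  have hd := d.isLt
  have h3 : (a.val + 1) * K ≤ b.val * K := Nat.mul_le_mul_right K hab
  have h4 : a.val * K + K ≤ b.val * K := by rw [Nat.add_mul, one_mul] at h3; exact h3
  constructor <;> split_ifs <;> omega

theorem ord_irr (K : ℕ) (o : Fin K → Fin K → Prop) (p u : ℕ) (a : Fin K) : ¬ ord K o p u a a := by
  rintro (⟨h, -⟩ | ⟨h, -⟩) <;> exact lt_irrefl _ h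

theorem ord_tot (K : ℕ) (o : Fin K → Fin K → Prop) (p u : ℕ) (a b : Fin K) (hab : a ≠ b) :
    ord K o p u a b ∨ ord K o p u b a := by
  unfold ord
  rcases lt_or_gt_of_ne hab with h | h
  · by_cases hw : win p (thr K o a b) u
    · exact Or.inl (Or.inl ⟨h, hw⟩)
    · exact Or.inr (Or.inr ⟨h, hw⟩)
  · by_cases hw : win p (thr K o b a) u
    · exact Or.inr (Or.inl ⟨h, hw⟩)
    · exact Or.inl (Or.inr ⟨h, hw⟩)

theorem win_up (p T1 T2 T3 u : ℕ) (h12 : T1 < T2) (h23 : T2 < T3) (h3 : T3 < p)
    (h1 : win p T1 u) (h2 : win p T3 u) : win p T2 u := by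
  unfold win at *
  omega

theorem win_dn (p T1 T2 T3 u : ℕ) (h12 : T1 < T2) (h23 : T2 < T3) (h3 : T3 < p)
    (h1 : ¬ win p T1 u) (h2 : ¬ win p T3 u) : ¬ win p T2 u := by
  unfold win at *
  omega

theorem ord_tr (K : ℕ) (o : Fin K → Fin K → Prop) (p u : ℕ) (hp : 2 * K ^ 2 + 2 ≤ p)
    (a b d : Fin K) (h1 : ord K o p u a b) (h2 : ord K o p u b d) : ord K o p u a d := by
  have hT : ∀ x y, thr K o x y < p := fun x y => lt_of_lt_of_le (thr_lt K o x y) hp
  rcases h1 with ⟨hab, w1⟩ | ⟨hba, w1⟩
  · rcases h2 with ⟨hbd, w2⟩ | ⟨hdb, w2⟩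
    · obtain ⟨s1, s2⟩ := thr_step K o a b d hab hbd
      exact Or.inl ⟨hab.trans hbd, win_up p _ _ _ u s1 s2 (hT _ _) w1 w2⟩
    · rcases lt_trichotomy a d with had | had | had
      · obtain ⟨s1, s2⟩ := thr_step K o a d b had hdb
        refine Or.inl ⟨had, ?_⟩
        by_contra hn
        exact win_dn p _ _ _ u s1 s2 (hT _ _) hn w2 w1
      · subst had
        exact absurd w1 w2
      · obtain ⟨s1, s2⟩ := thr_step K o d a b had hab
        refine Or.inr ⟨had, fun hn => ?_⟩
        exact w2 (win_up p _ _ _ u s1 s2 (hT _ _) hn w1)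
  · rcases h2 with ⟨hbd, w2⟩ | ⟨hdb, w2⟩
    · rcases lt_trichotomy a d with had | had | had
      · obtain ⟨s1, s2⟩ := thr_step K o b a d hba had
        refine Or.inl ⟨had, ?_⟩
        by_contra hn
        exact win_dn p _ _ _ u s1 s2 (hT _ _) w1 hn w2
      · subst had
        exact absurd w2 w1
      · obtain ⟨s1, s2⟩ := thr_step K o b d a hbd had
        refine Or.inr ⟨had, fun hn => ?_⟩
        exact w1 (win_up p _ _ _ u s1 s2 (hT _ _) w2 hn)
    · obtain ⟨s1, s2⟩ := thr_step K o d b a hdb hba
      exact Or.inr ⟨hdb.trans hba, win_dn p _ _ _ u s1 s2 (hT _ _) w2 w1⟩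

theorem pf_ALW : T_ALW := by
  intro K
  refine ⟨2 * K ^ 2 + 2, fun p hp hodd o ho => ?_⟩
  haveI : NeZero p := ⟨by omega⟩
  have hT : ∀ x y, thr K o x y < p := fun x y => lt_of_lt_of_le (thr_lt K o x y) hp
  have hrk : ∀ (i : ZMod p) (a b : Fin K),
      ((Finset.univ.filter (fun c => ord K o p (2 * i.val) c a)).card <
        (Finset.univ.filter (fun c => ord K o p (2 * i.val) c b)).card ↔
          ord K o p (2 * i.val) a b) := fun i =>
    rank_lt _ (ord_irr K o p _) (fun a b c => ord_tr K o p _ hp a b c) (ord_tot K o p _)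
  refine ⟨fun i a => (Finset.univ.filter (fun c => ord K o p (2 * i.val) c a)).card, ?_, ?_⟩
  · intro i a b hab
    by_contra hne
    rcases ord_tot K o p (2 * i.val) a b hne with h | h
    · have := (hrk i a b).2 h
      simp only at hab
      omega
    · have := (hrk i b a).2 h
      simp only at hab
      omega
  · intro a b hab hoab
    obtain ⟨q, hq⟩ := hodd
    rcases lt_or_gt_of_ne hab with hlt | hlt
    · have hTe : thr K o a b = 2 * (a.val * K + b.val) + 3 := by
        unfold thr
        rw [if_pos hoab]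
      have hTp := hT a b
      generalize hm : a.val * K + b.val = m at hTe
      refine ⟨((m + q + 2 : ℕ) : ZMod p), fun i => ?_⟩
      have hi : i.val < p := ZMod.val_lt i
      rw [hrk i a b, val_sub_cast p i (m + q + 2) (by omega)]
      have e : ord K o p (2 * i.val) a b ↔ win p (thr K o a b) (2 * i.val) := by
        unfold ord
        constructor
        · rintro (⟨-, h⟩ | ⟨h, -⟩)
          · exact h
          · exact absurd h (not_lt.2 hlt.le)
        · exact fun h => Or.inl ⟨hlt, h⟩
      rw [e, hTe]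
      unfold win
      split_ifs <;> omega
    · have hTe : thr K o b a = 2 * (b.val * K + a.val) + 2 := by
        unfold thr
        rw [if_neg ((ho a b hab).1 hoab)]
      have hTp := hT b a
      generalize hm : b.val * K + a.val = m at hTe
      refine ⟨((m + 1 : ℕ) : ZMod p), fun i => ?_⟩
      have hi : i.val < p := ZMod.val_lt i
      rw [hrk i a b, val_sub_cast p i (m + 1) (by omega)]
      have e : ord K o p (2 * i.val) a b ↔ ¬ win p (thr K o b a) (2 * i.val) := by
        unfold ord
        constructor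
        · rintro (⟨h, -⟩ | ⟨-, h⟩)
          · exact absurd h (not_lt.2 hlt.le)
          · exact h
        · exact fun h => Or.inr ⟨hlt, h⟩
      rw [e, hTe]
      unfold win
      split_ifs <;> omega

end Pool.Agent.H49.EQ
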