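import Mathlib
import Pool.Agent.H71.EQ.Targets

/-!
Row SUM of the board EQ: the sum over the excess converges (helper49).
-/

set_option autoImplicit false

open Pool.Agent.H38.AE.Statement Pool.Agent.H38.AT MeasureTheory Filter
open scoped Topology

namespace Pool.Agent.H49.EQ

open Pool.Agent.H71.EQ

private lemma sum_nu (k : ℕ) (hk : 2 ≤ k) : 0 < nu k ∧ nu k < 1 := by
  have h1 : (2 : ℝ) ≤ k := by exact_mod_cast hk
  unfold nu
  refine ⟨by positivity, ?_⟩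
  rw [div_lt_one (by positivity)]
  linarith

open Classical in
private lemma sum_card (k : ℕ) (κ lam ε₀ X : ℝ) (Y : ℕ) (hX : 1 ≤ X) (hlX : lam ≤ X ^ ε₀)
    (hf : ∀ E : ℕ, 1 ≤ E → (SF k E κ lam X).Finite)
    (hT : {x : Fin (k + 1) → ℤ | Admissible x ∧ (rd x : ℝ) ≤ X ∧
      (height x : ℝ) ≤ X ^ (nu k + ε₀)}.Finite) :
    ∑ E ∈ Finset.Icc 1 Y, ((SF k E κ lam X).ncard : ℝ) ≤
      ({x : Fin (k + 1) → ℤ | Admissible x ∧ (rd x : ℝ) ≤ X ∧
        (height x : ℝ) ≤ X ^ (nu k + ε₀)}.ncard : ℝ) := by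
  have hX0 : 0 < X := by linarith
  obtain ⟨S, hS⟩ : ∃ S : ℕ → Finset (Fin (k + 1) → ℤ), ∀ E, 1 ≤ E →
      ∀ x, x ∈ S E ↔ x ∈ SF k E κ lam X := by
    refine ⟨fun E => if h : 1 ≤ E then (hf E h).toFinset else ∅, fun E hE x => ?_⟩
    simp only [dif_pos hE, Set.Finite.mem_toFinset]
  have h1 : ∀ E, 1 ≤ E → (SF k E κ lam X).ncard = (S E).card := by
    intro E hE
    rw [← Set.ncard_coe_finset]
    congr 1
    ext x
    rw [Finset.mem_coe, hS E hE]
  have h2 : ((Finset.Icc 1 Y).biUnion S).card = ∑ E ∈ Finset.Icc 1 Y, (S E).card := by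
    refine Finset.card_biUnion fun E hE E' hE' hne => ?_
    rw [Function.onFun, Finset.disjoint_left]
    intro x hx hx'
    rw [Finset.mem_coe] at hE hE'
    rw [hS E (Finset.mem_Icc.1 hE).1] at hx
    rw [hS E' (Finset.mem_Icc.1 hE').1] at hx'
    exact hne (hx.2.1.symm.trans hx'.2.1)
  have h3 : ((Finset.Icc 1 Y).biUnion S).card ≤ hT.toFinset.card := by
    refine Finset.card_le_card fun x hx => ?_
    rw [Finset.mem_biUnion] at hx
    obtain ⟨E, hE, hx⟩ := hx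
    rw [hS E (Finset.mem_Icc.1 hE).1] at hx
    rw [Set.Finite.mem_toFinset]
    refine ⟨hx.1, hx.2.2.2.1, hx.2.2.2.2.trans ?_⟩
    rw [Real.rpow_add hX0, mul_comm (X ^ nu k)]
    exact mul_le_mul_of_nonneg_right hlX (Real.rpow_nonneg hX0.le _)
  rw [Set.ncard_eq_toFinset_card _ hT]
  calc ∑ E ∈ Finset.Icc 1 Y, ((SF k E κ lam X).ncard : ℝ)
      = ((∑ E ∈ Finset.Icc 1 Y, (S E).card : ℕ) : ℝ) := by
        push_cast
        exact Finset.sum_congr rfl fun E hE => by rw [h1 E (Finset.mem_Icc.1 hE).1]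
    _ ≤ (hT.toFinset.card : ℝ) := by
        rw [← h2]
        exact_mod_cast h3

/-- SUM: the sum over the excess converges. -/
theorem pf_SUM (hFEL : T_FEL) (hCTB : T_CTB) (hVFN : T_VFN) (hPRD : T_PRD) : T_SUM := by
  intro k hk
  obtain ⟨hfin, κ, lam0, hκ0, hκ1, hlam0, hvol⟩ := hVFN k hk
  obtain ⟨ε₀, C, hε₀, hC, hctb⟩ := hCTB k hk
  obtain ⟨hnu0, hnu1⟩ := sum_nu k hk
  have hRfin : ∀ (E : ℕ) (lam : ℝ), volume (Reg k E κ lam) < ⊤ := fun E lam =>
    lt_of_le_of_lt (measure_mono (fun z hz => hz.2.1)) hfin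
  obtain ⟨v, hvd⟩ : ∃ v : ℝ, v = (volume (Reg k 1 κ lam0)).toReal := ⟨_, rfl⟩
  have hv : 0 < v := by
    rw [hvd]
    exact ENNReal.toReal_pos hvol.ne' (hRfin 1 lam0).ne
  have hnn : ∀ E : ℕ, 0 ≤ wt (k + 1) E * (E : ℝ) ^ (1 - nu k) := by
    intro E
    rcases Nat.eq_zero_or_pos E with h0 | h0
    · rw [h0, Nat.cast_zero, Real.zero_rpow (by linarith), mul_zero]
    · exact mul_nonneg (hPRD k E hk h0).2.2.1 (Real.rpow_nonneg (Nat.cast_nonneg _) _)
  have key : ∀ Y : ℕ, 1 ≤ Y →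
      ∑ E ∈ Finset.Icc 1 Y, wt (k + 1) E * (E : ℝ) ^ (1 - nu k) ≤ C / v := by
    intro Y hY
    have hY1 : (1 : ℝ) ≤ Y := by exact_mod_cast hY
    obtain ⟨lam, hlam⟩ : ∃ lam : ℝ, lam = lam0 * (Y : ℝ) ^ nu k := ⟨_, rfl⟩
    have hYn : 1 ≤ (Y : ℝ) ^ nu k := Real.one_le_rpow hY1 hnu0.le
    have hlam1 : 1 ≤ lam := by rw [hlam]; nlinarith
    have hfel := fun (E : ℕ) (hE : 1 ≤ E) => hFEL k E κ lam hk hE hκ0 hκ1 hlam1
      (fun _ => (1 : ℝ)) continuous_const ⟨1, fun _ => by norm_num⟩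
    have hsub : ∀ E : ℕ, 1 ≤ E → E ≤ Y → v ≤ ∫ z in Reg k E κ lam,
        (fun _ : Fin (k + 1) → ℝ => (1 : ℝ)) (arg E z) := by
      intro E hE hEY
      have hE1 : (1 : ℝ) ≤ E := by exact_mod_cast hE
      have hE0 : (0 : ℝ) < E := by linarith
      have hEY' : (E : ℝ) ≤ Y := by exact_mod_cast hEY
      have h1 : ∫ z in Reg k E κ lam, (fun _ : Fin (k + 1) → ℝ => (1 : ℝ)) (arg E z) =
          (volume (Reg k E κ lam)).toReal := by
        rw [setIntegral_const]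
        simp [Measure.real]
      rw [h1, hvd]
      refine ENNReal.toReal_mono (hRfin E lam).ne (measure_mono ?_)
      rintro z ⟨hz1, hz2, hz3⟩
      refine ⟨hz1, hz2, fun i => (hz3 i).trans ?_⟩
      rw [Nat.cast_one, Real.one_rpow, mul_one, hlam, mul_assoc]
      have h2 : 1 ≤ (Y : ℝ) ^ nu k * (E : ℝ) ^ (-nu k) := by
        rw [Real.rpow_neg hE0.le, ← div_eq_mul_inv, one_le_div (Real.rpow_pos_of_pos hE0 _)]
        exact Real.rpow_le_rpow hE0.le hEY' hnu0.le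
      nlinarith
    have hlim := tendsto_finsetSum (Finset.Icc 1 Y)
      (fun E hE => (hfel E (Finset.mem_Icc.1 hE).1).2)
    have hbd : ∀ᶠ X : ℝ in atTop, ∑ E ∈ Finset.Icc 1 Y, X ^ (-(1 - nu k)) *
        ∑ᶠ x ∈ SF k E κ lam X, (fun _ : Fin (k + 1) → ℝ => (1 : ℝ)) (nrm x) ≤ C := by
      filter_upwards [eventually_ge_atTop (1 : ℝ),
        (tendsto_rpow_atTop hε₀).eventually_ge_atTop lam] with X hX hlX
      have hX0 : 0 < X := by linarith
      have h1 : ∀ E ∈ Finset.Icc 1 Y, X ^ (-(1 - nu k)) *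
          ∑ᶠ x ∈ SF k E κ lam X, (fun _ : Fin (k + 1) → ℝ => (1 : ℝ)) (nrm x) =
          X ^ (-(1 - nu k)) * ((SF k E κ lam X).ncard : ℝ) := by
        intro E hE
        have hf := (hfel E (Finset.mem_Icc.1 hE).1).1 X
        rw [finsum_mem_eq_finite_toFinset_sum _ hf, Set.ncard_eq_toFinset_card _ hf]
        simp
      rw [Finset.sum_congr rfl h1, ← Finset.mul_sum]
      have h2 := sum_card k κ lam ε₀ X Y hX hlX (fun E hE => (hfel E hE).1 X) (hctb X hX).1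
      have h3 := h2.trans (hctb X hX).2
      calc X ^ (-(1 - nu k)) * ∑ E ∈ Finset.Icc 1 Y, ((SF k E κ lam X).ncard : ℝ)
          ≤ X ^ (-(1 - nu k)) * (C * X ^ (1 - nu k)) :=
            mul_le_mul_of_nonneg_left h3 (Real.rpow_nonneg hX0.le _)
        _ = C * (X ^ (-(1 - nu k)) * X ^ (1 - nu k)) := by ring
        _ = C := by
            rw [← Real.rpow_add hX0, neg_add_cancel, Real.rpow_zero, mul_one]
    have hle := le_of_tendsto hlim hbd
    rw [le_div_iff₀ hv, Finset.sum_mul]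
    refine le_trans (Finset.sum_le_sum fun E hE => ?_) hle
    exact mul_le_mul_of_nonneg_left
      (hsub E (Finset.mem_Icc.1 hE).1 (Finset.mem_Icc.1 hE).2) (hnn E)
  refine summable_of_sum_range_le (c := C / v) hnn fun n => ?_
  rcases Nat.eq_zero_or_pos n with h0 | h0
  · rw [h0, Finset.range_zero, Finset.sum_empty]
    positivity
  · have h1 : Finset.range n ⊆ insert 0 (Finset.Icc 1 n) := by
      intro i hi
      rw [Finset.mem_range] at hi
      rw [Finset.mem_insert, Finset.mem_Icc]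
      omega
    refine (Finset.sum_le_sum_of_subset_of_nonneg h1 fun i _ _ => hnn i).trans ?_
    rw [Finset.sum_insert (by simp), Nat.cast_zero, Real.zero_rpow (by linarith), mul_zero,
      zero_add]
    exact key n h0

end Pool.Agent.H49.EQ
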